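import Pool.Agent.Lib_helper52.LQ.Defs
import Pool.Agent.Lib_helper53.LQ.N1
import Pool.Agent.Lib_helper35.LQ.V0
import Pool.Agent.Lib_helper23.EPS.F3
import Pool.Agent.Lib_helper52.EPS.P.F5
import Pool.Agent.Lib_helper52.EPS.P.F1

set_option autoImplicit false

namespace Pool.Agent.LQ

open MeasureTheory ENNReal Set Filter Topology Pool.Agent.EPS Pool.Agent.YG

variable {d : ℕ}

/-- For every `γ`: `epi_meas` for `β, γ`, `h(U) ≥ h(X)`, and `h(W) - h(U) ≤ h(X+Y) - h(X)` (`submod` with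
common summand `X`). -/
theorem v_end (θ L : ℝ) (h0 : 0 < θ) (h1 : θ < 1) (hL : 0 < L) (α β : Measure (Eu d))
    (hα : Nc α) (hβ : Sp L β) :
    d / 2 * Real.binEntropy θ - θ * (ent (α.conv β) - ent α) ≤ VV θ L α β := by
  unfold VV
  refine le_csInf ?_ ?_
  · obtain ⟨γ, hγ⟩ := sp_ex (d := d) L hL
    exact ⟨_, γ, hγ, rfl⟩
  rintro s ⟨γ, hγ, rfl⟩
  have pα : IsProbabilityMeasure α := hα.1
  have pβ : IsProbabilityMeasure β := hβ.1.1
  have pγ : IsProbabilityMeasure γ := hγ.1.1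
  have fα : FinE α := nc_fin hα
  have fβ : FinE β := nc_fin hβ.1
  have fγ : FinE γ := nc_fin hγ.1
  have fβγ : FinE (β.conv γ) := nc_fin (nc_conv hβ.1 hγ.1)
  have fαγ : FinE (α.conv γ) := nc_fin (nc_conv hα hγ.1)
  have cγα : γ.conv α = α.conv γ := Measure.conv_comm _ _
  have cβα : β.conv α = α.conv β := Measure.conv_comm _ _
  have fγα : FinE (γ.conv α) := by rw [cγα]; exact fαγ
  have fβα : FinE (β.conv α) := nc_fin (nc_conv hβ.1 hα)
  -- entropy power inequality for `β`, `γ`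
  have e1 := epi_meas β γ fβ fγ fβγ (1 - θ) (by linarith) (by linarith)
  rw [Real.binEntropy_one_sub] at e1
  -- `h(U) ≥ h(X)`
  have e2 := (MI_val γ α fα fγα).2
  rw [cγα] at e2
  -- submodularity with common summand `X`
  have e3 := (submod γ β α fα fγα fβα).2
  have cw : γ.conv (β.conv α) = (α.conv β).conv γ := by
    rw [cβα, Measure.conv_comm]
  rw [cw, cγα, cβα] at e3
  unfold SS
  nlinarith [mul_nonneg h0.le (sub_nonneg.2 e3), mul_nonneg (sub_nonneg.2 h1.le) (sub_nonneg.2 e2)]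

end Pool.Agent.LQ
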